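import Pool.Agent.X196.PH.Span

/-! The hyperbolic cone over a metric space. -/

set_option autoImplicit false

open Filter Topology

namespace Pool.Agent.X196.PH

/-- points of `T` with a height -/
structure Cone (T : Type) where
  pt : T
  ht : ℤ

noncomputable def cost (w : ℝ) (a b h : ℤ) : ℝ := 2 * h - a - b + w * 2 ^ (-h)

noncomputable def cd (w : ℝ) (a b : ℤ) : ℝ := ⨅ h : {h : ℤ // a ≤ h ∧ b ≤ h}, cost w a b h.1

instance (a b : ℤ) : Nonempty {h : ℤ // a ≤ h ∧ b ≤ h} :=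
  ⟨⟨max a b, le_max_left _ _, le_max_right _ _⟩⟩

theorem cost_ge {w : ℝ} (hw : 0 ≤ w) {a b h : ℤ} (ha : a ≤ h) (hb : b ≤ h) :
    |(a : ℝ) - b| ≤ cost w a b h := by
  have h1 : (0 : ℝ) ≤ w * 2 ^ (-h) := mul_nonneg hw (zpow_nonneg (by norm_num) _)
  have h2 : (a : ℝ) ≤ h := by exact_mod_cast ha
  have h3 : (b : ℝ) ≤ h := by exact_mod_cast hb
  unfold cost
  rw [abs_le]
  constructor <;> linarith

theorem cd_bdd {w : ℝ} (hw : 0 ≤ w) (a b : ℤ) :
    BddBelow (Set.range fun h : {h : ℤ // a ≤ h ∧ b ≤ h} => cost w a b h.1) :=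
  ⟨0, by rintro _ ⟨h, rfl⟩; exact (abs_nonneg _).trans (cost_ge hw h.2.1 h.2.2)⟩

theorem cd_le {w : ℝ} (hw : 0 ≤ w) {a b h : ℤ} (ha : a ≤ h) (hb : b ≤ h) :
    cd w a b ≤ cost w a b h :=
  ciInf_le (cd_bdd hw a b) (⟨h, ha, hb⟩ : {h : ℤ // a ≤ h ∧ b ≤ h})

theorem le_cd {w : ℝ} {a b : ℤ} {m : ℝ} (H : ∀ h : ℤ, a ≤ h → b ≤ h → m ≤ cost w a b h) :
    m ≤ cd w a b :=
  le_ciInf fun h => H h.1 h.2.1 h.2.2

theorem abs_le_cd {w : ℝ} (hw : 0 ≤ w) (a b : ℤ) : |(a : ℝ) - b| ≤ cd w a b :=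
  le_cd fun _ ha hb => cost_ge hw ha hb

theorem cd_comm (w : ℝ) (a b : ℤ) (hw : 0 ≤ w) : cd w a b = cd w b a := by
  have key : ∀ a b : ℤ, cd w a b ≤ cd w b a := fun a b => le_cd fun h ha hb => by
    refine (cd_le hw hb ha).trans (le_of_eq ?_)
    unfold cost
    ring
  exact le_antisymm (key a b) (key b a)

theorem cd_mono {w w' : ℝ} (hw : 0 ≤ w) (h : w ≤ w') (a b : ℤ) : cd w a b ≤ cd w' a b :=
  le_cd fun h' ha hb => (cd_le hw ha hb).trans (by
    unfold cost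
    have : w * (2 : ℝ) ^ (-h') ≤ w' * 2 ^ (-h') :=
      mul_le_mul_of_nonneg_right h (zpow_nonneg (by norm_num) _)
    linarith)

theorem zp {h1 h2 : ℤ} (h : h2 ≤ h1) : (2 : ℝ) ^ (-h1) ≤ 2 ^ (-h2) :=
  zpow_le_zpow_right₀ (by norm_num) (by omega)

theorem cd_tri {w1 w2 : ℝ} (hw1 : 0 ≤ w1) (hw2 : 0 ≤ w2) (a b c : ℤ) :
    cd (w1 + w2) a c ≤ cd w1 a b + cd w2 b c := by
  unfold cd
  refine le_ciInf_add_ciInf fun ⟨h1, ha, hb⟩ ⟨h2, hb', hc⟩ => ?_
  change cd (w1 + w2) a c ≤ cost w1 a b h1 + cost w2 b c h2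
  have hb1 : (b : ℝ) ≤ h1 := by exact_mod_cast hb
  have hb2 : (b : ℝ) ≤ h2 := by exact_mod_cast hb'
  rcases le_total h2 h1 with h | h
  · refine (cd_le (add_nonneg hw1 hw2) ha (hc.trans h)).trans ?_
    have := mul_le_mul_of_nonneg_left (zp h) hw2
    unfold cost
    linarith
  · refine (cd_le (add_nonneg hw1 hw2) (ha.trans h) hc).trans ?_
    have := mul_le_mul_of_nonneg_left (zp h) hw1
    unfold cost
    linarith

theorem cd_zero (a b : ℤ) : cd 0 a b = |(a : ℝ) - b| := by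
  apply le_antisymm _ (abs_le_cd le_rfl a b)
  refine (cd_le le_rfl (le_max_left a b) (le_max_right a b)).trans (le_of_eq ?_)
  unfold cost
  rw [zero_mul, add_zero, Int.cast_max]
  rcases le_total (a : ℝ) b with h | h
  · rw [max_eq_right h, abs_of_nonpos (by linarith)]
    ring
  · rw [max_eq_left h, abs_of_nonneg (by linarith)]
    ring

theorem cd_pos {w : ℝ} (hw : 0 < w) (a b : ℤ) : 0 < cd w a b := by
  have h : min 1 (w * 2 ^ (-a)) ≤ cd w a b := by
    refine le_cd fun h ha hb => ?_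
    rcases eq_or_lt_of_le ha with h1 | h1
    · subst h1
      refine (min_le_right _ _).trans ?_
      have : (b : ℝ) ≤ a := by exact_mod_cast hb
      unfold cost
      linarith
    · refine (min_le_left _ _).trans ?_
      have h2 : (a : ℝ) + 1 ≤ h := by exact_mod_cast h1
      have h3 : (b : ℝ) ≤ h := by exact_mod_cast hb
      have h4 : (0 : ℝ) ≤ w * 2 ^ (-h) := mul_nonneg hw.le (zpow_nonneg (by norm_num) _)
      unfold cost
      linarith
  exact lt_of_lt_of_le (lt_min one_pos (mul_pos hw (zpow_pos (by norm_num) _))) h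

theorem cd_nonneg {w : ℝ} (hw : 0 ≤ w) (a b : ℤ) : 0 ≤ cd w a b :=
  (abs_nonneg _).trans (abs_le_cd hw a b)

variable {T : Type} [MetricSpace T]

noncomputable instance : MetricSpace (Cone T) where
  dist p q := cd (dist p.pt q.pt) p.ht q.ht
  dist_self p := by
    change cd (dist p.pt p.pt) p.ht p.ht = 0
    rw [dist_self, cd_zero, sub_self, abs_zero]
  dist_comm p q := by
    change cd (dist p.pt q.pt) p.ht q.ht = cd (dist q.pt p.pt) q.ht p.ht
    rw [dist_comm, cd_comm _ _ _ dist_nonneg]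
  dist_triangle p q r := by
    change cd (dist p.pt r.pt) p.ht r.ht ≤ cd (dist p.pt q.pt) p.ht q.ht +
      cd (dist q.pt r.pt) q.ht r.ht
    exact (cd_mono dist_nonneg (dist_triangle p.pt q.pt r.pt) _ _).trans
      (cd_tri dist_nonneg dist_nonneg _ _ _)
  eq_of_dist_eq_zero := by
    rintro ⟨x, a⟩ ⟨y, b⟩ h
    change cd (dist x y) a b = 0 at h
    by_cases hxy : x = y
    · subst hxy
      rw [dist_self, cd_zero, abs_eq_zero, sub_eq_zero, Int.cast_inj] at h
      rw [h]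
    · have := cd_pos (dist_pos.2 hxy) a b
      linarith

theorem cdist (x y : T) (a b : ℤ) :
    dist (⟨x, a⟩ : Cone T) ⟨y, b⟩ = cd (dist x y) a b := rfl

/-! ### the approximating height -/

structure IsH (w : ℝ) (a b H : ℤ) : Prop where
  ha : a ≤ H
  hb : b ≤ H
  hw : w ≤ 2 ^ H
  min : ∀ H' : ℤ, a ≤ H' → b ≤ H' → w ≤ 2 ^ H' → H ≤ H'

theorem exH (w : ℝ) (a b : ℤ) : ∃ H, IsH w a b H := by
  obtain ⟨H, h1, h2⟩ := Int.exists_least_of_bdd (P := fun H => a ≤ H ∧ b ≤ H ∧ w ≤ 2 ^ H)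
    ⟨a, fun z hz => hz.1⟩ (by
      obtain ⟨n, hn⟩ := pow_unbounded_of_one_lt w (one_lt_two (α := ℝ))
      refine ⟨max (max a b) n, by omega, by omega, ?_⟩
      refine hn.le.trans ?_
      rw [← zpow_natCast]
      exact zpow_le_zpow_right₀ (by norm_num) (le_max_right _ _))
  exact ⟨H, h1.1, h1.2.1, h1.2.2, fun H' ha hb hw => h2 H' ⟨ha, hb, hw⟩⟩

theorem IsH.mul_le {w : ℝ} {a b H : ℤ} (h : IsH w a b H) : w * 2 ^ (-H) ≤ 1 := by
  have h1 := mul_le_mul_of_nonneg_right h.hw (zpow_nonneg (by norm_num : (0 : ℝ) ≤ 2) (-H))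
  rwa [← zpow_add₀ (by norm_num), add_neg_cancel, zpow_zero] at h1

theorem IsH.upper {w : ℝ} (hw : 0 ≤ w) {a b H : ℤ} (h : IsH w a b H) :
    cd w a b ≤ 2 * H - a - b + 1 := by
  refine (cd_le hw h.ha h.hb).trans ?_
  have := h.mul_le
  unfold cost
  linarith

theorem two_mul_le_pow (j : ℕ) : 2 * j ≤ 2 ^ j := by
  induction j with
  | zero => simp
  | succ n ih =>
    rcases n with _ | n
    · simp
    · rw [pow_succ]
      omega

theorem IsH.lower {w : ℝ} (hw : 0 ≤ w) {a b H : ℤ} (h : IsH w a b H) :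
    (2 * H - a - b - 2 : ℝ) ≤ cd w a b := by
  refine le_cd fun h' ha hb => ?_
  have h0 : (0 : ℝ) ≤ w * 2 ^ (-h') := mul_nonneg hw (zpow_nonneg (by norm_num) _)
  unfold cost
  rcases le_or_gt H h' with h1 | h1
  · have : (H : ℝ) ≤ h' := by exact_mod_cast h1
    linarith
  · have h2 : (2 : ℝ) ^ (H - 1) < w := by
      by_contra h3
      have := h.min (H - 1) (by omega) (by omega) (not_lt.1 h3)
      omega
    obtain ⟨j, hj⟩ : ∃ j : ℕ, H - 1 - h' = j := ⟨(H - 1 - h').toNat, by omega⟩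
    have h3 : (2 : ℝ) ^ (H - 1) * 2 ^ (-h') = 2 ^ j := by
      rw [← zpow_add₀ (by norm_num), ← zpow_natCast, ← hj]
      congr 1
    have h4 : (2 : ℝ) ^ j ≤ w * 2 ^ (-h') := by
      rw [← h3]
      exact mul_le_mul_of_nonneg_right h2.le (zpow_nonneg (by norm_num) _)
    have h5 : (2 * j : ℝ) ≤ 2 ^ j := by exact_mod_cast two_mul_le_pow j
    have h6 : (H : ℝ) = j + 1 + h' := by
      have : H = j + 1 + h' := by omega
      exact_mod_cast this
    rw [h6]
    linarith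

theorem IsH.ultra {w1 w2 w3 : ℝ} {a b c H1 H2 H3 : ℤ} (h1 : IsH w1 a b H1) (h2 : IsH w2 b c H2)
    (h3 : IsH w3 a c H3) (h : w3 ≤ w1 + w2) : H3 ≤ H1 + 1 ∨ H3 ≤ H2 + 1 := by
  rcases le_total H2 H1 with h' | h'
  · left
    refine h3.min _ (by have := h1.ha; omega) (by have := h2.hb; omega) ?_
    have e : (2 : ℝ) ^ (H1 + 1) = 2 ^ H1 + 2 ^ H1 := by
      rw [zpow_add₀ (by norm_num), zpow_one]
      ring
    have := zpow_le_zpow_right₀ (by norm_num : (1 : ℝ) ≤ 2) h'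
    rw [e]
    linarith [h1.hw, h2.hw]
  · right
    refine h3.min _ (by have := h1.ha; omega) (by have := h2.hb; omega) ?_
    have e : (2 : ℝ) ^ (H2 + 1) = 2 ^ H2 + 2 ^ H2 := by
      rw [zpow_add₀ (by norm_num), zpow_one]
      ring
    have := zpow_le_zpow_right₀ (by norm_num : (1 : ℝ) ≤ 2) h'
    rw [e]
    linarith [h1.hw, h2.hw]

theorem cone_hyp : GromovHyp (Cone T) := by
  refine ⟨10, ?_⟩
  rintro ⟨x, a⟩ ⟨y, b⟩ ⟨z, c⟩ ⟨v, d⟩
  simp only [cdist]
  obtain ⟨Hxy, hxy⟩ := exH (dist x y) a b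
  obtain ⟨Hzv, hzv⟩ := exH (dist z v) c d
  obtain ⟨Hxz, hxz⟩ := exH (dist x z) a c
  obtain ⟨Hyv, hyv⟩ := exH (dist y v) b d
  obtain ⟨Hxv, hxv⟩ := exH (dist x v) a d
  obtain ⟨Hyz, hyz⟩ := exH (dist y z) b c
  have sw : ∀ {w : ℝ} {a b H : ℤ}, IsH w a b H → IsH w b a H := fun h =>
    ⟨h.hb, h.ha, h.hw, fun H' h1 h2 h3 => h.min H' h2 h1 h3⟩
  have t1 := hxz.ultra (sw hyz) hxy (by rw [dist_comm y z]; exact dist_triangle _ _ _)
  have t2 := hxv.ultra (sw hyv) hxy (by rw [dist_comm y v]; exact dist_triangle _ _ _)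
  have t3 := (sw hxz).ultra hxv hzv (by rw [dist_comm x z]; exact dist_triangle _ _ _)
  have t4 := (sw hyz).ultra hyv hzv (by rw [dist_comm y z]; exact dist_triangle _ _ _)
  have key : Hxy + Hzv ≤ Hxz + Hyv + 2 ∨ Hxy + Hzv ≤ Hxv + Hyz + 2 := by omega
  have u1 := hxy.upper dist_nonneg
  have u2 := hzv.upper dist_nonneg
  rcases key with h | h
  · have l1 := hxz.lower dist_nonneg
    have l2 := hyv.lower dist_nonneg
    have h' : (Hxy + Hzv : ℝ) ≤ Hxz + Hyv + 2 := by exact_mod_cast h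
    have := le_max_left (cd (dist x z) a c + cd (dist y v) b d)
      (cd (dist x v) a d + cd (dist y z) b c)
    linarith
  · have l1 := hxv.lower dist_nonneg
    have l2 := hyz.lower dist_nonneg
    have h' : (Hxy + Hzv : ℝ) ≤ Hxv + Hyz + 2 := by exact_mod_cast h
    have := le_max_right (cd (dist x z) a c + cd (dist y v) b d)
      (cd (dist x v) a d + cd (dist y z) b c)
    linarith

theorem cone_geo : CoarseGeo (Cone T) 4 := by
  rintro ⟨x, a⟩ ⟨y, b⟩ r hr0 hr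
  obtain ⟨H, h⟩ := exH (dist x y) a b
  have up := h.upper dist_nonneg
  have lo := h.lower dist_nonneg
  rw [cdist] at hr ⊢
  have hm := h.mul_le
  by_cases hj : ⌊r⌋ ≤ H - a
  · refine ⟨⟨x, a + ⌊r⌋⟩, ?_, ?_⟩
    · rw [cdist, dist_self, cd_zero]
      have h1 := Int.floor_le r
      have h2 : (0 : ℝ) ≤ ⌊r⌋ := by exact_mod_cast Int.floor_nonneg.2 hr0
      push_cast
      rw [abs_of_nonpos (by linarith)]
      linarith
    · rw [cdist]
      refine (cd_le dist_nonneg (show a + ⌊r⌋ ≤ H by omega) h.hb).trans ?_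
      have h1 := Int.lt_floor_add_one r
      unfold cost
      push_cast
      linarith
  · have hj' : H - a + 1 ≤ ⌊r⌋ := by omega
    have hj2 : (H - a + 1 : ℝ) ≤ ⌊r⌋ := by exact_mod_cast hj'
    set D := cd (dist x y) a b with hD
    have hi0 : 0 ≤ ⌊D - r⌋ := Int.floor_nonneg.2 (by linarith)
    have hfl := Int.floor_le r
    have hi1 : ⌊D - r⌋ ≤ H - b := by
      have : (⌊D - r⌋ : ℝ) ≤ H - b := (Int.floor_le _).trans (by linarith)
      exact_mod_cast this
    refine ⟨⟨y, b + ⌊D - r⌋⟩, ?_, ?_⟩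
    · rw [cdist]
      refine (cd_le dist_nonneg h.ha (show b + ⌊D - r⌋ ≤ H by omega)).trans ?_
      have h1 := Int.lt_floor_add_one (D - r)
      unfold cost
      push_cast
      linarith
    · rw [cdist, dist_self, cd_zero]
      have h1 := Int.floor_le (D - r)
      have h2 : (0 : ℝ) ≤ ⌊D - r⌋ := by exact_mod_cast hi0
      push_cast
      rw [abs_of_nonneg (by linarith)]
      linarith

/-! ### similarities -/

theorem cd_scale_le {w : ℝ} (hw : 0 ≤ w) (a b c : ℤ) :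
    cd (2 ^ c * w) (a + c) (b + c) ≤ cd w a b := by
  refine le_cd fun h ha hb => ?_
  refine (cd_le (mul_nonneg (zpow_nonneg (by norm_num) _) hw)
    (show a + c ≤ h + c by omega) (show b + c ≤ h + c by omega)).trans (le_of_eq ?_)
  unfold cost
  have e : (2 : ℝ) ^ c * w * 2 ^ (-(h + c)) = w * 2 ^ (-h) := by
    rw [mul_comm ((2 : ℝ) ^ c) w, mul_assoc, ← zpow_add₀ (by norm_num)]
    congr 2
    ring
  rw [e]
  push_cast
  ring

theorem cd_scale {w : ℝ} (hw : 0 ≤ w) (a b c : ℤ) :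
    cd (2 ^ c * w) (a + c) (b + c) = cd w a b := by
  apply le_antisymm (cd_scale_le hw a b c)
  have h := cd_scale_le (mul_nonneg (zpow_nonneg (by norm_num : (0 : ℝ) ≤ 2) c) hw) (a + c)
    (b + c) (-c)
  rw [← mul_assoc, ← zpow_add₀ (by norm_num), neg_add_cancel, zpow_zero, one_mul,
    add_neg_cancel_right, add_neg_cancel_right] at h
  exact h

/-- actions by similarities -/
structure SimAct (G T : Type) [Group G] [MetricSpace T] where
  e : G →* Equiv.Perm T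
  c : G →* Multiplicative ℤ
  h : ∀ g x y, dist (e g x) (e g y) = 2 ^ (c g).toAdd * dist x y

variable {G : Type} [Group G]

def SimAct.mp (A : SimAct G T) (g : G) (p : Cone T) : Cone T :=
  ⟨A.e g p.pt, p.ht + (A.c g).toAdd⟩

theorem SimAct.mp_one (A : SimAct G T) (p : Cone T) : A.mp 1 p = p := by
  unfold SimAct.mp
  rw [_root_.map_one, _root_.map_one, Equiv.Perm.one_apply, toAdd_one, add_zero]

theorem SimAct.mp_mul (A : SimAct G T) (g h : G) (p : Cone T) :
    A.mp (g * h) p = A.mp g (A.mp h p) := by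
  unfold SimAct.mp
  rw [_root_.map_mul, _root_.map_mul, Equiv.Perm.mul_apply, toAdd_mul, add_assoc,
    add_comm (A.c g).toAdd]

noncomputable def SimAct.hom (A : SimAct G T) : G →* (Cone T ≃ᵢ Cone T) where
  toFun g :=
    { toFun := A.mp g
      invFun := A.mp g⁻¹
      left_inv := fun p => by rw [← A.mp_mul, inv_mul_cancel, A.mp_one]
      right_inv := fun p => by rw [← A.mp_mul, mul_inv_cancel, A.mp_one]
      isometry_toFun := Isometry.of_dist_eq fun p q => by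
        change cd (dist (A.e g p.pt) (A.e g q.pt)) (p.ht + (A.c g).toAdd) (q.ht + (A.c g).toAdd) =
          cd (dist p.pt q.pt) p.ht q.ht
        rw [A.h, cd_scale dist_nonneg] }
  map_one' := by
    ext p
    exact A.mp_one p
  map_mul' g h := by
    ext p
    exact A.mp_mul g h p

theorem SimAct.hom_apply (A : SimAct G T) (g : G) (x : T) (a : ℤ) :
    A.hom g ⟨x, a⟩ = ⟨A.e g x, a + (A.c g).toAdd⟩ := rfl

end Pool.Agent.X196.PH
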