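import Mathlib

/-! Groups with property (PH) from focal and lineal actions (MP_d5cca6_al, helper196): definitions. -/

set_option autoImplicit false

open Filter Topology

namespace Pool.Agent.X196.PH

/-- `G` is amenable: there is a finitely additive left invariant probability measure defined on
all subsets. -/
def Amenable (G : Type) [Group G] : Prop :=
  ∃ m : Set G → ℝ, (∀ A, 0 ≤ m A) ∧ m Set.univ = 1 ∧
    (∀ A B, Disjoint A B → m (A ∪ B) = m A + m B) ∧ ∀ (g : G) (A : Set G), m ((g * ·) '' A) = m A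

section space

variable (X : Type) [MetricSpace X]

/-- geodesic metric spaces: any two points are joined by an isometrically embedded interval -/
def Geodesic : Prop := ∀ x y : X, ∃ γ : ℝ → X, γ 0 = x ∧ γ (dist x y) = y ∧
  ∀ s ∈ Set.Icc 0 (dist x y), ∀ t ∈ Set.Icc 0 (dist x y), dist (γ s) (γ t) = |s - t|

/-- Gromov's four point condition -/
def GromovHyp : Prop := ∃ δ : ℝ, ∀ x y z w : X,
  dist x y + dist z w ≤ max (dist x z + dist y w) (dist x w + dist y z) + δ

variable {X}

/-- the Gromov product of `x` and `y` seen from `o` -/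
noncomputable def gp (o x y : X) : ℝ := (dist o x + dist o y - dist x y) / 2

/-- the two sequences have the same limit in the Gromov boundary (the Gromov products of their
terms tend to infinity) -/
def SameEnd (u v : ℕ → X) : Prop :=
  ∀ o : X, Tendsto (fun p : ℕ × ℕ => gp o (u p.1) (v p.2)) atTop atTop

/-- the sequence converges to a point of the Gromov boundary -/
def ToInf (u : ℕ → X) : Prop := SameEnd u u

/-- the isometry `f` fixes the boundary point which is the limit of `u` -/
def Fixes (f : X ≃ᵢ X) (u : ℕ → X) : Prop := SameEnd (fun n => f (u n)) u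

/-- loxodromic isometries: the orbit maps are quasi-isometric embeddings of `ℤ` -/
def Lox (f : X ≃ᵢ X) : Prop :=
  ∃ (x : X) (c C : ℝ), 0 < c ∧ ∀ n : ℤ, c * |(n : ℝ)| - C ≤ dist x ((f ^ n) x)

variable {G : Type} [Group G]

/-- some orbit is coarsely dense -/
def Cobounded (ρ : G →* (X ≃ᵢ X)) : Prop := ∃ (x : X) (R : ℝ), ∀ y : X, ∃ g : G, dist y (ρ g x) ≤ R

/-- lineal actions: there are loxodromic elements, and all of them fix the same points of the
boundary -/
def Lineal (ρ : G →* (X ≃ᵢ X)) : Prop := (∃ g, Lox (ρ g)) ∧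
  ∀ g h, Lox (ρ g) → Lox (ρ h) → ∀ u : ℕ → X, ToInf u → (Fixes (ρ g) u ↔ Fixes (ρ h) u)

/-- focal actions: not lineal, there are loxodromic elements, and any two of them have a common
fixed point in the boundary -/
def Focal (ρ : G →* (X ≃ᵢ X)) : Prop := ¬ Lineal ρ ∧ (∃ g, Lox (ρ g)) ∧
  ∀ g h, Lox (ρ g) → Lox (ρ h) → ∃ u : ℕ → X, ToInf u ∧ Fixes (ρ g) u ∧ Fixes (ρ h) u

end space

/-- the diagonal action on the product is (metrically) proper -/
def ProperDiag {G : Type} [Group G] {n : ℕ} (X : Fin n → Type) [∀ i, MetricSpace (X i)]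
    (ρ : ∀ i, G →* (X i ≃ᵢ X i)) : Prop :=
  ∀ B : Set (∀ i, X i), Bornology.IsBounded B →
    {g : G | ∃ x ∈ B, (fun i => ρ i g (x i)) ∈ B}.Finite

/-- Property (PH') from focal actions, `n` spaces. -/
def FocalPH (G : Type) [Group G] (n : ℕ) : Prop :=
  ∃ (X : Fin n → Type) (_ : ∀ i, MetricSpace (X i)) (ρ : ∀ i, G →* (X i ≃ᵢ X i)),
    (∀ i, Geodesic (X i) ∧ GromovHyp (X i) ∧ Cobounded (ρ i) ∧ Focal (ρ i)) ∧ ProperDiag X ρ

end Pool.Agent.X196.PH
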