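import Pool.Agent.X196.PH.Cone

/-! Focal actions on the tight span of a cone. -/

set_option autoImplicit false

open Filter Topology

namespace Pool.Agent.X196.PH

theorem gp_base {X : Type} [MetricSpace X] (o o' x y : X) :
    gp o x y - dist o o' ≤ gp o' x y := by
  have h1 := dist_triangle o o' x
  have h2 := dist_triangle o o' y
  unfold gp
  linarith

theorem sameEnd_of {X : Type} [MetricSpace X] {u v : ℕ → X} (o : X)
    (h : Tendsto (fun p : ℕ × ℕ => gp o (u p.1) (v p.2)) atTop atTop) : SameEnd u v := by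
  intro o'
  refine tendsto_atTop_mono (fun p => gp_base o o' (u p.1) (v p.2)) ?_
  exact tendsto_atTop_add_const_right _ (-dist o o') h

theorem tendsto_min_sub (C : ℝ) :
    Tendsto (fun p : ℕ × ℕ => min (p.1 : ℝ) p.2 - C) atTop atTop := by
  refine tendsto_atTop.2 fun b => ?_
  obtain ⟨N, hN⟩ := exists_nat_ge (b + C)
  refine (eventually_ge_atTop ((N, N) : ℕ × ℕ)).mono fun p hp => ?_
  have h1 : (N : ℝ) ≤ p.1 := by exact_mod_cast hp.1
  have h2 : (N : ℝ) ≤ p.2 := by exact_mod_cast hp.2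
  have := le_min h1 h2
  linarith

variable {T : Type} [MetricSpace T]

theorem gp_kur {V : Type} [MetricSpace V] (p q r : V) : gp (kur p) (kur q) (kur r) = gp p q r := by
  unfold gp
  rw [dist_kur, dist_kur, dist_kur]

theorem up_same (x y : T) (c : ℤ) :
    SameEnd (fun n : ℕ => kur (⟨x, (n : ℤ) + c⟩ : Cone T)) fun n : ℕ => kur ⟨y, n⟩ := by
  refine sameEnd_of (kur ⟨y, 0⟩) ?_
  refine tendsto_atTop_mono (fun p => ?_) (tendsto_min_sub (|(c : ℝ)| + dist x y / 2))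
  obtain ⟨n, m⟩ := p
  simp only
  rw [gp_kur]
  unfold gp
  rw [cdist, cdist, cdist, dist_self, cd_zero]
  have h1 := abs_le_cd (dist_nonneg (x := y) (y := x)) 0 ((n : ℤ) + c)
  have h2 : cd (dist x y) ((n : ℤ) + c) m ≤ |(n : ℝ) + c - m| + dist x y := by
    refine (cd_le dist_nonneg (le_max_left _ _) (le_max_right _ _)).trans ?_
    unfold cost
    have h3 : (2 : ℝ) ^ (-max ((n : ℤ) + c) m) ≤ 1 :=
      zpow_le_one_of_nonpos₀ (by norm_num) (by omega)
    have h4 := mul_le_mul_of_nonneg_left h3 (dist_nonneg (x := x) (y := y))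
    rw [mul_one] at h4
    have h5 : (2 * ((max ((n : ℤ) + c) m : ℤ) : ℝ) - (((n : ℤ) + c : ℤ) : ℝ) - ((m : ℤ) : ℝ)) =
        |(n : ℝ) + c - m| := by
      push_cast
      rcases le_total ((n : ℝ) + c) m with h | h
      · rw [max_eq_right h, abs_of_nonpos (by linarith)]
        ring
      · rw [max_eq_left h, abs_of_nonneg (by linarith)]
        ring
    linarith
  push_cast at h1 ⊢
  have h6 := neg_abs_le (c : ℝ)
  have h7 := le_abs_self (c : ℝ)
  have h8 := neg_abs_le ((0 : ℝ) - (n + c))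
  rw [zero_sub, abs_neg] at h1
  have h9 := le_abs_self ((n : ℝ) + c)
  have h10 : |(0 : ℝ) - m| = m := by
    rw [zero_sub, abs_neg, abs_of_nonneg (Nat.cast_nonneg m)]
  rw [h10]
  have hd : 0 ≤ dist x y := dist_nonneg
  rcases abs_cases ((n : ℝ) + c - m) with ⟨e, _⟩ | ⟨e, _⟩ <;> rw [e] at h2
  · have := min_le_right (n : ℝ) m
    linarith
  · have := min_le_left (n : ℝ) m
    linarith

theorem down_same (x : T) (c : ℤ) :
    SameEnd (fun n : ℕ => kur (⟨x, -(n : ℤ) + c⟩ : Cone T)) fun n : ℕ => kur ⟨x, -(n : ℤ)⟩ := by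
  refine sameEnd_of (kur ⟨x, 0⟩) ?_
  refine tendsto_atTop_mono (fun p => ?_) (tendsto_min_sub (|(c : ℝ)|))
  obtain ⟨n, m⟩ := p
  simp only
  rw [gp_kur]
  unfold gp
  rw [cdist, cdist, cdist, dist_self, cd_zero, cd_zero, cd_zero]
  push_cast
  have h6 := neg_abs_le (c : ℝ)
  have h7 := le_abs_self (c : ℝ)
  have h9 := le_abs_self ((0 : ℝ) - (-n + c))
  have h10 := le_abs_self ((0 : ℝ) - -m)
  rcases abs_cases (-(n : ℝ) + c - -m) with ⟨e, _⟩ | ⟨e, _⟩ <;> rw [e]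
  · have := min_le_left (n : ℝ) m
    linarith
  · have := min_le_right (n : ℝ) m
    linarith

theorem cost_low {w : ℝ} (hw : 0 < w) : ∃ C : ℝ, ∀ h : ℤ, -C ≤ 2 * h + w * 2 ^ (-h) := by
  obtain ⟨K, hK⟩ := exists_pow_lt_of_lt_one hw (by norm_num : (1 / 2 : ℝ) < 1)
  refine ⟨2 * K, fun h => ?_⟩
  have hpos : (0 : ℝ) ≤ w * 2 ^ (-h) := mul_nonneg hw.le (zpow_nonneg (by norm_num) _)
  rcases le_or_gt (K : ℤ) (-h) with h1 | h1
  · obtain ⟨j, hj⟩ : ∃ j : ℕ, -h = K + j := ⟨(-h - K).toNat, by omega⟩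
    have h2 : (2 : ℝ) ^ j ≤ w * 2 ^ (-h) := by
      rw [hj, zpow_add₀ (by norm_num), zpow_natCast, zpow_natCast, ← mul_assoc]
      have h3 : 1 ≤ w * 2 ^ K := by
        have := mul_le_mul_of_nonneg_right hK.le (pow_nonneg (by norm_num : (0 : ℝ) ≤ 2) K)
        rwa [← mul_pow, one_div, inv_mul_cancel₀ (by norm_num), one_pow] at this
      have h4 : (0 : ℝ) ≤ 2 ^ j := by positivity
      exact le_mul_of_one_le_left h4 h3
    have h5 : (2 * j : ℝ) ≤ 2 ^ j := by exact_mod_cast two_mul_le_pow j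
    have h6 : (h : ℝ) = -(K + j) := by
      have : h = -((K : ℤ) + j) := by omega
      rw [this]
      push_cast
      ring
    rw [h6] at *
    linarith
  · have : (-(h : ℝ)) < K := by exact_mod_cast h1
    linarith

theorem down_diff {x y : T} (hxy : x ≠ y) (c : ℤ) :
    ¬ SameEnd (fun n : ℕ => kur (⟨x, -(n : ℤ) + c⟩ : Cone T)) fun n : ℕ => kur ⟨y, -(n : ℤ)⟩ := by
  intro h
  obtain ⟨C, hC⟩ := cost_low (dist_pos.2 hxy)
  have h1 := h (kur ⟨x, 0⟩)
  have h2 : Tendsto (fun n : ℕ => (n, n)) atTop (atTop : Filter (ℕ × ℕ)) := by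
    rw [← prod_atTop_atTop_eq]
    exact tendsto_id.prodMk tendsto_id
  have h3 := (h1.comp h2).eventually (eventually_gt_atTop ((2 * |(c : ℝ)| + dist x y + C) / 2))
  obtain ⟨n, hn⟩ := h3.exists
  simp only [Function.comp] at hn
  rw [gp_kur] at hn
  unfold gp at hn
  rw [cdist, cdist, cdist, dist_self, cd_zero] at hn
  have h4 : cd (dist x y) 0 (-(n : ℤ)) ≤ n + dist x y := by
    refine (cd_le dist_nonneg le_rfl (by omega)).trans ?_
    unfold cost
    push_cast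
    rw [neg_zero, zpow_zero]
    linarith
  have h5 : 2 * (n : ℝ) - c - C ≤ cd (dist x y) (-(n : ℤ) + c) (-(n : ℤ)) := by
    refine le_cd fun h' _ _ => ?_
    have := hC h'
    unfold cost
    push_cast
    linarith
  push_cast at hn
  have h6 := neg_abs_le (c : ℝ)
  have h7 := le_abs_self (c : ℝ)
  have h8 : |(0 : ℝ) - (-n + c)| ≤ n + |(c : ℝ)| := by
    have h9 : (0 : ℝ) ≤ n := Nat.cast_nonneg n
    rw [abs_le]
    constructor <;> linarith
  linarith

variable {G : Type} [Group G]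

theorem lox_conj {X : Type} [MetricSpace X] (ρ : G →* (X ≃ᵢ X)) (g k : G) (h : Lox (ρ g)) :
    Lox (ρ (k * g * k⁻¹)) := by
  obtain ⟨x, c, C, hc, h⟩ := h
  refine ⟨ρ k x, c, C, hc, fun n => ?_⟩
  have e : (ρ (k * g * k⁻¹) ^ n) (ρ k x) = ρ k ((ρ g ^ n) x) := by
    rw [← map_zpow, conj_zpow, map_mul, map_mul, map_zpow]
    change ρ k ((ρ g ^ n) (ρ k⁻¹ (ρ k x))) = _
    have : ρ k⁻¹ (ρ k x) = x := by
      change (ρ k⁻¹ * ρ k) x = x
      rw [← map_mul, inv_mul_cancel, map_one]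
      rfl
    rw [this]
  rw [e, (ρ k).isometry.dist_eq]
  exact h n

noncomputable def SimAct.tr (A : SimAct G T) : G →* (TS (Cone T) ≃ᵢ TS (Cone T)) :=
  (thom (Cone T)).comp A.hom

theorem SimAct.tr_kur (A : SimAct G T) (g : G) (x : T) (a : ℤ) :
    A.tr g (kur ⟨x, a⟩) = kur ⟨A.e g x, a + (A.c g).toAdd⟩ := by
  change thom (Cone T) (A.hom g) (kur ⟨x, a⟩) = _
  rw [thom_kur, A.hom_apply]

theorem SimAct.lox (A : SimAct G T) {t : G} {x0 : T} (h1 : A.e t x0 = x0)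
    (h2 : (A.c t).toAdd = 1) : Lox (A.tr t) := by
  refine ⟨kur ⟨x0, 0⟩, 1, 0, one_pos, fun n => ?_⟩
  rw [← map_zpow, A.tr_kur, dist_kur, cdist, map_zpow, map_zpow,
    Equiv.Perm.zpow_apply_eq_self_of_apply_eq_self h1, dist_self, cd_zero, toAdd_zpow, h2]
  simp

theorem SimAct.up (A : SimAct G T) (g : G) (x0 : T) :
    Fixes (A.tr g) fun n : ℕ => kur (⟨x0, n⟩ : Cone T) := by
  unfold Fixes
  have e : (fun n : ℕ => A.tr g (kur (⟨x0, n⟩ : Cone T))) =
      fun n : ℕ => kur (⟨A.e g x0, (n : ℤ) + (A.c g).toAdd⟩ : Cone T) := by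
    funext n
    exact A.tr_kur g x0 n
  rw [e]
  exact up_same _ _ _

theorem SimAct.down (A : SimAct G T) (g : G) (x : T) :
    Fixes (A.tr g) (fun n : ℕ => kur (⟨x, -(n : ℤ)⟩ : Cone T)) ↔ A.e g x = x := by
  unfold Fixes
  have e : (fun n : ℕ => A.tr g (kur (⟨x, -(n : ℤ)⟩ : Cone T))) =
      fun n : ℕ => kur (⟨A.e g x, -(n : ℤ) + (A.c g).toAdd⟩ : Cone T) := by
    funext n
    exact A.tr_kur g x _
  rw [e]
  constructor
  · intro h
    by_contra h'
    exact down_diff h' _ h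
  · intro h
    rw [h]
    exact down_same _ _

theorem SimAct.focal (A : SimAct G T) {t k : G} {x0 : T} (h1 : A.e t x0 = x0)
    (h2 : (A.c t).toAdd = 1) (h3 : A.e t (A.e k x0) ≠ A.e k x0) : Focal (A.tr) := by
  have hl := A.lox h1 h2
  refine ⟨?_, ⟨t, hl⟩, ?_⟩
  · rintro ⟨_, h⟩
    have h4 := h (k * t * k⁻¹) t (lox_conj _ _ _ hl) hl
      (fun n : ℕ => kur (⟨A.e k x0, -(n : ℤ)⟩ : Cone T))
      (by
        have := down_same (A.e k x0) 0
        simp only [add_zero] at this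
        exact this)
    rw [A.down, A.down] at h4
    refine h3 (h4.1 ?_)
    rw [map_mul, map_mul, Equiv.Perm.mul_apply, Equiv.Perm.mul_apply, map_inv,
      Equiv.Perm.inv_def, Equiv.symm_apply_apply, h1]
  · intro g h _ _
    refine ⟨fun n : ℕ => kur (⟨x0, n⟩ : Cone T), ?_, A.up g x0, A.up h x0⟩
    have := up_same x0 x0 0
    simp only [add_zero] at this
    exact this

theorem SimAct.cobounded (A : SimAct G T) {x0 : T} (h : ∀ p : Cone T, ∃ g, A.hom g ⟨x0, 0⟩ = p) :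
    Cobounded (A.tr) := by
  have : Nonempty (Cone T) := ⟨⟨x0, 0⟩⟩
  obtain ⟨C, hC⟩ := coarse_dense cone_hyp (cone_geo (T := T))
  refine ⟨kur ⟨x0, 0⟩, C, fun f => ?_⟩
  obtain ⟨v, hv⟩ := hC f
  obtain ⟨g, rfl⟩ := h v
  refine ⟨g, ?_⟩
  change dist f (thom (Cone T) (A.hom g) (kur ⟨x0, 0⟩)) ≤ C
  rw [thom_kur]
  exact hv

theorem focalPH_of {n : ℕ} (T : Fin n → Type) [∀ i, MetricSpace (T i)]
    (A : ∀ i, SimAct G (T i)) (x0 : ∀ i, T i) (t k : Fin n → G)
    (h1 : ∀ i, (A i).e (t i) (x0 i) = x0 i) (h2 : ∀ i, ((A i).c (t i)).toAdd = 1)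
    (h3 : ∀ i, (A i).e (t i) ((A i).e (k i) (x0 i)) ≠ (A i).e (k i) (x0 i))
    (h4 : ∀ i, ∀ p : Cone (T i), ∃ g, (A i).hom g ⟨x0 i, 0⟩ = p)
    (h5 : ∀ R : ℝ, {g : G | ∀ i, dist (⟨x0 i, 0⟩ : Cone (T i)) ((A i).hom g ⟨x0 i, 0⟩) ≤ R}.Finite) :
    FocalPH G n := by
  refine ⟨fun i => TS (Cone (T i)), inferInstance, fun i => (A i).tr, fun i => ?_, ?_⟩
  · have : Nonempty (Cone (T i)) := ⟨⟨x0 i, 0⟩⟩
    exact ⟨geodesic, ts_hyp cone_hyp, (A i).cobounded (h4 i), (A i).focal (h1 i) (h2 i) (h3 i)⟩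
  · intro B hB
    set c : ∀ i, TS (Cone (T i)) := fun i => kur ⟨x0 i, 0⟩ with hc
    obtain ⟨R, hR⟩ := (Metric.isBounded_iff_subset_closedBall c).1 hB
    refine (h5 (R + R)).subset ?_
    rintro g ⟨x, hx, hgx⟩ i
    have e : dist (⟨x0 i, 0⟩ : Cone (T i)) ((A i).hom g ⟨x0 i, 0⟩) = dist (c i) ((A i).tr g (c i)) := by
      change _ = dist (kur _) (thom (Cone (T i)) ((A i).hom g) (kur _))
      rw [thom_kur, dist_kur]
    rw [e]
    have h6 : dist x c ≤ R := Metric.mem_closedBall.1 (hR hx)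
    have h7 : dist (fun i => (A i).tr g (x i)) c ≤ R := Metric.mem_closedBall.1 (hR hgx)
    have h8 := (dist_le_pi_dist x c i).trans h6
    have h9 := (dist_le_pi_dist (fun i => (A i).tr g (x i)) c i).trans h7
    have h10 := dist_triangle (c i) ((A i).tr g (x i)) ((A i).tr g (c i))
    rw [((A i).tr g).isometry.dist_eq] at h10
    have h11 := dist_comm (c i) ((A i).tr g (x i))
    linarith

end Pool.Agent.X196.PH
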