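import Pool.Agent.X196.PH.Focal

/-! The group `FreeGroup ℤ ⋊ ℤ` and its two focal actions. -/

set_option autoImplicit false

open Filter Topology

namespace Pool.Agent.X196.PH

/-! ### weighted word lengths -/

noncomputable def wl (s : ℤ) (L : List (ℤ × Bool)) : ℝ := (L.map fun p => (2 : ℝ) ^ (s * p.1)).sum

theorem wl_nonneg (s : ℤ) (L : List (ℤ × Bool)) : 0 ≤ wl s L := by
  refine List.sum_nonneg fun x hx => ?_
  obtain ⟨p, _, rfl⟩ := List.mem_map.1 hx
  positivity

theorem wl_cons (s : ℤ) (p : ℤ × Bool) (L : List (ℤ × Bool)) :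
    wl s (p :: L) = 2 ^ (s * p.1) + wl s L := by
  simp [wl]

theorem wl_append (s : ℤ) (L M : List (ℤ × Bool)) : wl s (L ++ M) = wl s L + wl s M := by
  simp [wl]

theorem wl_sublist (s : ℤ) {L M : List (ℤ × Bool)} (h : L.Sublist M) : wl s L ≤ wl s M := by
  induction h with
  | slnil => exact le_rfl
  | cons a _ ih =>
    rw [wl_cons]
    have : (0 : ℝ) ≤ 2 ^ (s * a.1) := by positivity
    linarith
  | cons_cons a _ ih =>
    rw [wl_cons, wl_cons]
    linarith

theorem wl_mem (s : ℤ) {L : List (ℤ × Bool)} {p : ℤ × Bool} (h : p ∈ L) :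
    (2 : ℝ) ^ (s * p.1) ≤ wl s L := by
  have := wl_sublist s (List.singleton_sublist.2 h)
  rw [wl_cons] at this
  simpa [wl] using this

/-- weighted word length: the letter with index `i` has the weight `2 ^ (s i)` -/
noncomputable def wt (s : ℤ) (g : FreeGroup ℤ) : ℝ := wl s g.toWord

theorem wt_nonneg (s : ℤ) (g : FreeGroup ℤ) : 0 ≤ wt s g := wl_nonneg s _

theorem wt_mk_le (s : ℤ) (L : List (ℤ × Bool)) : wt s (FreeGroup.mk L) ≤ wl s L := by
  unfold wt
  rw [FreeGroup.toWord_mk]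
  exact wl_sublist s (FreeGroup.reduce.red).sublist

theorem wt_one (s : ℤ) : wt s 1 = 0 := by
  simp [wt, wl]

theorem wt_mul_le (s : ℤ) (g h : FreeGroup ℤ) : wt s (g * h) ≤ wt s g + wt s h := by
  conv_lhs => rw [← FreeGroup.mk_toWord (x := g), ← FreeGroup.mk_toWord (x := h),
    FreeGroup.mul_mk]
  exact (wt_mk_le s _).trans (wl_append s _ _).le

theorem wt_inv_le (s : ℤ) (g : FreeGroup ℤ) : wt s g⁻¹ ≤ wt s g := by
  conv_lhs => rw [← FreeGroup.mk_toWord (x := g), FreeGroup.inv_mk]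
  refine (wt_mk_le s _).trans (le_of_eq ?_)
  simp only [wl, FreeGroup.invRev, List.map_reverse, List.sum_reverse, List.map_map]
  rfl

theorem wt_inv (s : ℤ) (g : FreeGroup ℤ) : wt s g⁻¹ = wt s g := by
  apply le_antisymm (wt_inv_le s g)
  have := wt_inv_le s g⁻¹
  rwa [inv_inv] at this

theorem wt_eq_zero {s : ℤ} {g : FreeGroup ℤ} (h : wt s g = 0) : g = 1 := by
  rw [← FreeGroup.toWord_eq_nil_iff]
  unfold wt at h
  by_contra h1
  obtain ⟨p, L, hL⟩ := List.exists_cons_of_ne_nil h1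
  rw [hL, wl_cons] at h
  have h2 : (0 : ℝ) < 2 ^ (s * p.1) := by positivity
  have h3 := wl_nonneg s L
  linarith

/-- the shift of the generators -/
def sh (c : ℤ) : MulAut (FreeGroup ℤ) := FreeGroup.freeGroupCongr (Equiv.addRight c)

theorem sh_of (c n : ℤ) : sh c (FreeGroup.of n) = FreeGroup.of (n + c) := by
  simp [sh]

theorem sh_mk (c : ℤ) (L : List (ℤ × Bool)) :
    sh c (FreeGroup.mk L) = FreeGroup.mk (L.map fun p => (p.1 + c, p.2)) := by
  simp [sh]

theorem sh_add (c d : ℤ) : sh (c + d) = sh c * sh d := by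
  have : (sh (c + d)).toMonoidHom = (sh c * sh d).toMonoidHom := by
    ext n
    change sh (c + d) (FreeGroup.of n) = sh c (sh d (FreeGroup.of n))
    rw [sh_of, sh_of, sh_of]
    congr 1
    ring
  ext g
  exact DFunLike.congr_fun this g

theorem sh_zero : sh 0 = 1 := by
  have h := sh_add 0 0
  rw [add_zero] at h
  exact (mul_eq_left.1 h.symm)

theorem wt_sh_le (s c : ℤ) (g : FreeGroup ℤ) : wt s (sh c g) ≤ 2 ^ (s * c) * wt s g := by
  conv_lhs => rw [← FreeGroup.mk_toWord (x := g), sh_mk]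
  refine (wt_mk_le s _).trans (le_of_eq ?_)
  unfold wt wl
  rw [List.map_map, ← List.sum_map_mul_left]
  congr 1
  refine List.map_congr_left fun p _ => ?_
  simp only [Function.comp]
  rw [← zpow_add₀ (by norm_num)]
  congr 1
  ring

theorem wt_sh (s c : ℤ) (g : FreeGroup ℤ) : wt s (sh c g) = 2 ^ (s * c) * wt s g := by
  apply le_antisymm (wt_sh_le s c g)
  have h := wt_sh_le s (-c) (sh c g)
  have e : sh (-c) (sh c g) = g := by
    change (sh (-c) * sh c) g = g
    rw [← sh_add, neg_add_cancel, sh_zero]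
    rfl
  rw [e] at h
  have h1 := mul_le_mul_of_nonneg_left h (zpow_nonneg (by norm_num : (0 : ℝ) ≤ 2) (s * c))
  rwa [← mul_assoc, ← zpow_add₀ (by norm_num), mul_neg, add_neg_cancel, zpow_zero, one_mul] at h1

/-! ### the group -/

def phi : Multiplicative ℤ →* MulAut (FreeGroup ℤ) where
  toFun m := sh m.toAdd
  map_one' := sh_zero
  map_mul' a b := by rw [toAdd_mul, sh_add]

theorem phi_apply (m : Multiplicative ℤ) : phi m = sh m.toAdd := rfl

abbrev GG : Type := FreeGroup ℤ ⋊[phi] Multiplicative ℤ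

/-- the metric spaces on which the group acts by similarities -/
structure TT (s : ℤ) : Type where
  g : FreeGroup ℤ

noncomputable instance (s : ℤ) : MetricSpace (TT s) where
  dist x y := wt s (x.g⁻¹ * y.g)
  dist_self x := by
    change wt s (x.g⁻¹ * x.g) = 0
    rw [inv_mul_cancel, wt_one]
  dist_comm x y := by
    change wt s (x.g⁻¹ * y.g) = wt s (y.g⁻¹ * x.g)
    rw [← wt_inv, mul_inv_rev, inv_inv]
  dist_triangle x y z := by
    change wt s (x.g⁻¹ * z.g) ≤ wt s (x.g⁻¹ * y.g) + wt s (y.g⁻¹ * z.g)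
    have e : x.g⁻¹ * z.g = (x.g⁻¹ * y.g) * (y.g⁻¹ * z.g) := by group
    rw [e]
    exact wt_mul_le s _ _
  eq_of_dist_eq_zero := by
    rintro ⟨x⟩ ⟨y⟩ h
    change wt s (x⁻¹ * y) = 0 at h
    have := wt_eq_zero h
    rw [inv_mul_eq_one] at this
    rw [this]

theorem tt_dist (s : ℤ) (x y : TT s) : dist x y = wt s (x.g⁻¹ * y.g) := rfl

instance (s : ℤ) : MulAction GG (TT s) where
  smul g x := ⟨g.left * phi g.right x.g⟩
  one_smul x := by
    change (⟨1 * phi 1 x.g⟩ : TT s) = x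
    rw [map_one, one_mul]
    rfl
  mul_smul g h x := by
    change (⟨(g * h).left * phi (g * h).right x.g⟩ : TT s) =
      ⟨g.left * phi g.right (h.left * phi h.right x.g)⟩
    rw [SemidirectProduct.mul_left, SemidirectProduct.mul_right, map_mul, map_mul, mul_assoc]
    rfl

theorem smul_g (s : ℤ) (g : GG) (x : TT s) : (g • x).g = g.left * phi g.right x.g := rfl

noncomputable def act (s : ℤ) : SimAct GG (TT s) where
  e := MulAction.toPermHom GG (TT s)
  c := (zpowGroupHom s).comp SemidirectProduct.rightHom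
  h g x y := by
    change dist (g • x) (g • y) = 2 ^ (g.right ^ s).toAdd * dist x y
    rw [tt_dist, tt_dist, smul_g, smul_g, mul_inv_rev, mul_assoc, inv_mul_cancel_left, ← map_inv,
      ← map_mul, phi_apply, wt_sh, toAdd_zpow, smul_eq_mul]

theorem act_e (s : ℤ) (g : GG) (x : TT s) : (act s).e g x = ⟨g.left * phi g.right x.g⟩ := rfl

theorem act_c (s : ℤ) (g : GG) : ((act s).c g).toAdd = s * g.right.toAdd := by
  change (g.right ^ s).toAdd = _
  rw [toAdd_zpow, smul_eq_mul]

/-! ### finiteness -/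

theorem cd_bound {w : ℝ} (hw : 0 ≤ w) {b : ℤ} {R : ℝ} (h : cd w 0 b ≤ R) :
    |(b : ℝ)| ≤ R ∧ w ≤ 2 ^ (⌈R⌉ + 1) := by
  have h1 := abs_le_cd hw 0 b
  have h2 : |(b : ℝ)| ≤ R := by
    rw [Int.cast_zero, zero_sub, abs_neg] at h1
    linarith
  refine ⟨h2, ?_⟩
  obtain ⟨H, hH⟩ := exH w 0 b
  have h3 := hH.lower hw
  have h4 := le_abs_self (b : ℝ)
  have h5 : (H : ℝ) ≤ R + 1 := by
    push_cast at h3
    linarith
  refine hH.hw.trans (zpow_le_zpow_right₀ (by norm_num) ?_)
  have h6 : (H : ℝ) - 1 ≤ ⌈R⌉ := by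
    have := Int.le_ceil R
    linarith
  have h7 : H - 1 ≤ ⌈R⌉ := by exact_mod_cast h6
  omega

theorem int_le_zpow (n : ℤ) : (n : ℝ) ≤ 2 ^ n := by
  rcases le_or_gt 0 n with h | h
  · obtain ⟨k, rfl⟩ := Int.eq_ofNat_of_zero_le h
    rw [zpow_natCast]
    exact_mod_cast (Nat.lt_two_pow_self (n := k)).le
  · have h1 : (n : ℝ) < 0 := by exact_mod_cast h
    have h2 : (0 : ℝ) < 2 ^ n := by positivity
    linarith

theorem len_le (L : List (ℤ × Bool)) : (L.length : ℝ) ≤ wl 1 L + wl (-1) L := by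
  induction L with
  | nil => simp [wl]
  | cons p L ih =>
    rw [wl_cons, wl_cons, List.length_cons]
    push_cast
    have h : (1 : ℝ) ≤ 2 ^ (1 * p.1) + 2 ^ (-1 * p.1) := by
      rcases le_total 0 p.1 with h | h
      · have h1 : (1 : ℝ) ≤ 2 ^ (1 * p.1) := one_le_zpow₀ (by norm_num) (by omega)
        have h2 : (0 : ℝ) < 2 ^ (-1 * p.1) := by positivity
        linarith
      · have h1 : (1 : ℝ) ≤ 2 ^ (-1 * p.1) := one_le_zpow₀ (by norm_num) (by omega)
        have h2 : (0 : ℝ) < 2 ^ (1 * p.1) := by positivity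
        linarith
    linarith

theorem fin_words (M : ℝ) : {g : FreeGroup ℤ | wt 1 g ≤ M ∧ wt (-1) g ≤ M}.Finite := by
  set S : Set (ℤ × Bool) := Set.Icc (-⌈M⌉) ⌈M⌉ ×ˢ Set.univ with hS
  have hSf : S.Finite := (Set.finite_Icc _ _).prod Set.finite_univ
  have : Finite S := hSf
  have hl := (List.finite_length_le S ⌈2 * M⌉.toNat).image (List.map Subtype.val)
  refine Set.Finite.subset (hl.image FreeGroup.mk) ?_
  rintro g ⟨h1, h2⟩
  have hmem : ∀ p ∈ g.toWord, p ∈ S := by
    intro p hp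
    have a1 := (int_le_zpow (1 * p.1)).trans ((wl_mem 1 hp).trans h1)
    have a2 := (int_le_zpow (-1 * p.1)).trans ((wl_mem (-1) hp).trans h2)
    have b1 : ((1 * p.1 : ℤ) : ℝ) ≤ ⌈M⌉ := a1.trans (Int.le_ceil M)
    have b2 : ((-1 * p.1 : ℤ) : ℝ) ≤ ⌈M⌉ := a2.trans (Int.le_ceil M)
    have c1 : 1 * p.1 ≤ ⌈M⌉ := by exact_mod_cast b1
    have c2 : -1 * p.1 ≤ ⌈M⌉ := by exact_mod_cast b2
    exact ⟨⟨by omega, by omega⟩, trivial⟩
  refine ⟨g.toWord, ?_, FreeGroup.mk_toWord⟩
  refine ⟨g.toWord.attach.map fun p => ⟨p.1, hmem p.1 p.2⟩, ?_, ?_⟩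
  · change (g.toWord.attach.map _).length ≤ _
    rw [List.length_map, List.length_attach]
    have h3 := len_le g.toWord
    have h4 : (g.toWord.length : ℝ) ≤ ⌈2 * M⌉ := by
      refine h3.trans ((?_ : _ ≤ 2 * M).trans (Int.le_ceil _))
      have e1 : wl 1 g.toWord ≤ M := h1
      have e2 : wl (-1) g.toWord ≤ M := h2
      linarith
    have h5 : (g.toWord.length : ℤ) ≤ ⌈2 * M⌉ := by exact_mod_cast h4
    omega
  · rw [List.map_map]
    have : (Subtype.val ∘ fun p : {x // x ∈ g.toWord} => (⟨p.1, hmem p.1 p.2⟩ : S)) =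
        Subtype.val := rfl
    rw [this]
    exact List.attach_map_subtype_val _

theorem fin_group (R M : ℝ) :
    {g : GG | |(g.right.toAdd : ℝ)| ≤ R ∧ wt 1 g.left ≤ M ∧ wt (-1) g.left ≤ M}.Finite := by
  have h1 := (fin_words M).prod (Set.finite_Icc (-⌈R⌉) ⌈R⌉)
  refine Set.Finite.subset
    (h1.image fun p : FreeGroup ℤ × ℤ => (⟨p.1, Multiplicative.ofAdd p.2⟩ : GG)) ?_
  rintro g ⟨h2, h3, h4⟩
  refine ⟨(g.left, g.right.toAdd), ⟨⟨h3, h4⟩, ?_⟩, ?_⟩
  · have h5 := abs_le.1 (h2.trans (Int.le_ceil R))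
    have h6 : (-⌈R⌉ : ℤ) ≤ g.right.toAdd := by exact_mod_cast h5.1
    have h7 : g.right.toAdd ≤ ⌈R⌉ := by exact_mod_cast h5.2
    exact ⟨h6, h7⟩
  · rfl

/-! ### the two focal actions -/

def sg (i : Fin 2) : ℤ := if i = 0 then 1 else -1

theorem sg_mul (i : Fin 2) : sg i * sg i = 1 := by
  fin_cases i <;> simp [sg]

theorem focalPH : FocalPH GG 2 := by
  refine focalPH_of (fun i => TT (sg i)) (fun i => act (sg i)) (fun i => ⟨1⟩)
    (fun i => ⟨1, Multiplicative.ofAdd (sg i)⟩) (fun i => ⟨FreeGroup.of 0, 1⟩) ?_ ?_ ?_ ?_ ?_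
  · intro i
    rw [act_e]
    simp
  · intro i
    rw [act_c]
    exact sg_mul i
  · intro i
    rw [act_e, act_e]
    simp only [map_one, mul_one, one_mul]
    rw [phi_apply, toAdd_ofAdd, sh_of]
    intro h
    have h1 := congrArg TT.g h
    simp only at h1
    have h2 := FreeGroup.of_injective h1
    have h3 := sg_mul i
    have h4 : sg i = 0 := by omega
    rw [h4] at h3
    omega
  · rintro i ⟨⟨x⟩, a⟩
    refine ⟨⟨x, Multiplicative.ofAdd (sg i * a)⟩, ?_⟩
    rw [SimAct.hom_apply, act_e, act_c]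
    simp only [map_one, mul_one, zero_add, toAdd_ofAdd]
    rw [← mul_assoc, sg_mul, one_mul]
  · intro R
    refine (fin_group R (2 ^ (⌈R⌉ + 1))).subset ?_
    intro g hg
    have key : ∀ i : Fin 2, |((sg i * g.right.toAdd : ℤ) : ℝ)| ≤ R ∧
        wt (sg i) g.left ≤ 2 ^ (⌈R⌉ + 1) := by
      intro i
      have h1 := hg i
      rw [SimAct.hom_apply, act_e, act_c, cdist, zero_add, tt_dist] at h1
      simp only [map_one, mul_one, inv_one, one_mul] at h1
      exact cd_bound (wt_nonneg _ _) h1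
    have h0 := key 0
    have h1 := key 1
    have e0 : sg 0 = 1 := rfl
    have e1 : sg 1 = -1 := rfl
    rw [e0, one_mul] at h0
    rw [e1] at h1
    exact ⟨h0.1, h0.2, h1.2⟩

/-! ### not amenable, finitely generated -/

theorem meas_mono {G : Type} {m : Set G → ℝ} (h0 : ∀ A, 0 ≤ m A)
    (ha : ∀ A B, Disjoint A B → m (A ∪ B) = m A + m B) {A B : Set G} (h : A ⊆ B) : m A ≤ m B := by
  have := ha A (B \ A) Set.disjoint_sdiff_right
  rw [Set.union_sdiff_cancel h] at this
  linarith [h0 (B \ A)]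

theorem meas_union {G : Type} {m : Set G → ℝ} (h0 : ∀ A, 0 ≤ m A)
    (ha : ∀ A B, Disjoint A B → m (A ∪ B) = m A + m B) (A B : Set G) :
    m (A ∪ B) ≤ m A + m B := by
  have h1 := ha A (B \ A) Set.disjoint_sdiff_right
  rw [Set.union_sdiff_self] at h1
  have h2 := meas_mono h0 ha (Set.sdiff_subset : B \ A ⊆ B)
  linarith

def PS (w : ℤ × Bool) : Set GG := {g | g.left ∈ FreeGroup.startsWith w}

theorem ps_disj {w w' : ℤ × Bool} (h : w ≠ w') : Disjoint (PS w) (PS w') := by
  rw [Set.disjoint_left]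
  intro g h1 h2
  exact Set.disjoint_left.1 (FreeGroup.startsWith.disjoint_iff_ne.2 h) h1 h2

theorem ps_cover (i : ℤ) :
    PS (i, true) ∪ ((⟨FreeGroup.of i, 1⟩ : GG) * ·) '' PS (i, false) = Set.univ := by
  refine Set.eq_univ_of_forall fun g => ?_
  by_cases h : g ∈ PS (i, true)
  · exact Or.inl h
  · right
    refine ⟨⟨FreeGroup.mk [(i, false)] * g.left, g.right⟩, ?_, ?_⟩
    · exact FreeGroup.startsWith_mk_mul (w := (i, false)) g.left h
    · apply SemidirectProduct.ext
      · rw [SemidirectProduct.mul_left]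
        simp only [map_one, MulAut.one_apply]
        rw [← mul_assoc]
        have : FreeGroup.of i * FreeGroup.mk [(i, false)] = 1 := by
          change FreeGroup.of i * (FreeGroup.of i)⁻¹ = 1
          exact mul_inv_cancel _
        rw [this, one_mul]
      · rw [SemidirectProduct.mul_right]
        exact one_mul _

theorem not_amenable : ¬ Amenable GG := by
  rintro ⟨m, h0, h1, ha, hi⟩
  have key : ∀ i : ℤ, 1 ≤ m (PS (i, true)) + m (PS (i, false)) := by
    intro i
    have h2 := meas_union h0 ha (PS (i, true)) (((⟨FreeGroup.of i, 1⟩ : GG) * ·) '' PS (i, false))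
    rw [ps_cover, h1, hi] at h2
    exact h2
  have k0 := key 0
  have k1 := key 1
  have d1 : Disjoint (PS (0, true)) (PS (0, false)) := ps_disj (by simp)
  have d2 : Disjoint (PS (1, true)) (PS (1, false)) := ps_disj (by simp)
  have d3 : Disjoint (PS (0, true) ∪ PS (0, false)) (PS (1, true) ∪ PS (1, false)) := by
    rw [Set.disjoint_union_left, Set.disjoint_union_right, Set.disjoint_union_right]
    exact ⟨⟨ps_disj (by simp), ps_disj (by simp)⟩, ⟨ps_disj (by simp), ps_disj (by simp)⟩⟩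
  have e := ha _ _ d3
  rw [ha _ _ d1, ha _ _ d2] at e
  have := meas_mono h0 ha (Set.subset_univ
    ((PS (0, true) ∪ PS (0, false)) ∪ (PS (1, true) ∪ PS (1, false))))
  rw [h1, e] at this
  linarith

theorem fg : Group.FG GG := by
  rw [Group.fg_iff]
  set x : GG := SemidirectProduct.inl (FreeGroup.of 0) with hx
  set t : GG := SemidirectProduct.inr (Multiplicative.ofAdd 1) with ht
  refine ⟨{x, t}, ?_, by simp⟩
  set H := Subgroup.closure ({x, t} : Set GG) with hH
  have hxH : x ∈ H := Subgroup.subset_closure (by simp)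
  have htH : t ∈ H := Subgroup.subset_closure (by simp)
  have hr : ∀ n : Multiplicative ℤ, (SemidirectProduct.inr n : GG) ∈ H := by
    intro n
    have e : (SemidirectProduct.inr n : GG) = t ^ n.toAdd := by
      rw [ht, ← map_zpow, ← ofAdd_zsmul, smul_eq_mul, mul_one]
      rfl
    rw [e]
    exact H.zpow_mem htH _
  have hl : ∀ k : FreeGroup ℤ, (SemidirectProduct.inl k : GG) ∈ H := by
    have ho : ∀ i : ℤ, (SemidirectProduct.inl (FreeGroup.of i) : GG) ∈ H := by
      intro i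
      have e : FreeGroup.of i = phi (Multiplicative.ofAdd i) (FreeGroup.of 0) := by
        rw [phi_apply, toAdd_ofAdd, sh_of, zero_add]
      rw [e, SemidirectProduct.inl_aut]
      exact H.mul_mem (H.mul_mem (hr _) hxH) (hr _)
    intro k
    induction k using FreeGroup.induction_on with
    | C1 => rw [map_one]; exact H.one_mem
    | of i => exact ho i
    | inv_of i _ => rw [map_inv]; exact H.inv_mem (ho i)
    | mul a b h1 h2 => rw [map_mul]; exact H.mul_mem h1 h2
  rw [eq_top_iff]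
  intro g _
  rw [← SemidirectProduct.inl_left_mul_inr_right g]
  exact H.mul_mem (hl _) (hr _)

end Pool.Agent.X196.PH
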