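import Pool.Agent.X196.PH.Free

/-! The free group of rank two. -/

set_option autoImplicit false

open Filter Topology

namespace Pool.Agent.X196.PH

abbrev F2 : Type := FreeGroup (Fin 2)

def xx : GG := SemidirectProduct.inl (FreeGroup.of 0)

def tt : GG := SemidirectProduct.inr (Multiplicative.ofAdd 1)

theorem tt_zpow (n : ℤ) : tt ^ n = SemidirectProduct.inr (Multiplicative.ofAdd n) := by
  unfold tt
  rw [← map_zpow, ← ofAdd_zsmul, smul_eq_mul, mul_one]

theorem inl_of (i : ℤ) : (SemidirectProduct.inl (FreeGroup.of i) : GG) = tt ^ i * xx * (tt ^ i)⁻¹ := by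
  have e : FreeGroup.of i = phi (Multiplicative.ofAdd i) (FreeGroup.of 0) := by
    rw [phi_apply, toAdd_ofAdd, sh_of, zero_add]
  rw [e, SemidirectProduct.inl_aut, tt_zpow, map_inv]
  rfl

def fwd : F2 →* GG := FreeGroup.lift ![xx, tt]

def fn : FreeGroup ℤ →* F2 :=
  FreeGroup.lift fun i : ℤ => FreeGroup.of 1 ^ i * FreeGroup.of 0 * (FreeGroup.of 1 ^ i)⁻¹

def fz : Multiplicative ℤ →* F2 := zpowersHom F2 (FreeGroup.of 1)

theorem fz_apply (m : Multiplicative ℤ) : fz m = FreeGroup.of 1 ^ m.toAdd := rfl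

theorem compat (m : Multiplicative ℤ) :
    fn.comp (phi m).toMonoidHom = (MulAut.conj (fz m)).toMonoidHom.comp fn := by
  ext i
  change fn (phi m (FreeGroup.of i)) = fz m * fn (FreeGroup.of i) * (fz m)⁻¹
  rw [phi_apply, sh_of, fz_apply]
  unfold fn
  rw [FreeGroup.lift_apply_of, FreeGroup.lift_apply_of, add_comm, zpow_add]
  group

def bwd : GG →* F2 := SemidirectProduct.lift fn fz compat

theorem bwd_fwd : bwd.comp fwd = MonoidHom.id F2 := by
  ext i
  change bwd (fwd (FreeGroup.of i)) = FreeGroup.of i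
  unfold fwd
  rw [FreeGroup.lift_apply_of]
  fin_cases i
  · change bwd xx = _
    unfold bwd xx
    rw [SemidirectProduct.lift_inl]
    unfold fn
    rw [FreeGroup.lift_apply_of]
    simp
  · change bwd tt = _
    unfold bwd tt
    rw [SemidirectProduct.lift_inr, fz_apply]
    simp

theorem fwd_bwd : fwd.comp bwd = MonoidHom.id GG := by
  have h1 : fwd (FreeGroup.of 0) = xx := by unfold fwd; rw [FreeGroup.lift_apply_of]; rfl
  have h2 : fwd (FreeGroup.of 1) = tt := by unfold fwd; rw [FreeGroup.lift_apply_of]; rfl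
  apply SemidirectProduct.hom_ext
  · ext i
    · change (fwd (bwd (SemidirectProduct.inl (FreeGroup.of i)))).left =
        (SemidirectProduct.inl (FreeGroup.of i) : GG).left
      congr 1
      unfold bwd
      rw [SemidirectProduct.lift_inl]
      unfold fn
      rw [FreeGroup.lift_apply_of, map_mul, map_mul, map_inv, map_zpow, h1, h2, inl_of]
    · change (fwd (bwd (SemidirectProduct.inl (FreeGroup.of i)))).right =
        (SemidirectProduct.inl (FreeGroup.of i) : GG).right
      congr 1
      unfold bwd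
      rw [SemidirectProduct.lift_inl]
      unfold fn
      rw [FreeGroup.lift_apply_of, map_mul, map_mul, map_inv, map_zpow, h1, h2, inl_of]
  · apply MonoidHom.ext
    intro m
    change fwd (bwd (SemidirectProduct.inr m)) = SemidirectProduct.inr m
    unfold bwd
    rw [SemidirectProduct.lift_inr, fz_apply, map_zpow, h2, tt_zpow]
    rfl

def iso : F2 ≃* GG where
  toFun := fwd
  invFun := bwd
  left_inv x := DFunLike.congr_fun bwd_fwd x
  right_inv x := DFunLike.congr_fun fwd_bwd x
  map_mul' := map_mul fwd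

theorem FocalPH.congr {G H : Type} [Group G] [Group H] (e : H ≃* G) {n : ℕ}
    (h : FocalPH G n) : FocalPH H n := by
  obtain ⟨X, mX, ρ, h1, h2⟩ := h
  refine ⟨X, mX, fun i => (ρ i).comp e.toMonoidHom, fun i => ?_, ?_⟩
  · obtain ⟨a, b, c, d, ⟨g, hg⟩, f⟩ := h1 i
    have key : ∀ g : G, ((ρ i).comp e.toMonoidHom) (e.symm g) = ρ i g := by
      intro g
      change ρ i (e (e.symm g)) = ρ i g
      rw [e.apply_symm_apply]
    refine ⟨a, b, ?_, ?_, ⟨e.symm g, by rw [key]; exact hg⟩, ?_⟩
    · obtain ⟨x, R, hx⟩ := c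
      refine ⟨x, R, fun y => ?_⟩
      obtain ⟨g, hg⟩ := hx y
      exact ⟨e.symm g, by rw [key]; exact hg⟩
    · rintro ⟨-, hl⟩
      refine d ⟨⟨g, hg⟩, fun g h hg hh u hu => ?_⟩
      have := hl (e.symm g) (e.symm h) (by rw [key]; exact hg) (by rw [key]; exact hh) u hu
      rw [key, key] at this
      exact this
    · intro g h hg hh
      exact f (e g) (e h) hg hh
  · intro B hB
    exact (h2 B hB).preimage (f := e) e.injective.injOn

theorem focalPH_F2 : FocalPH F2 2 := focalPH.congr iso

theorem cover2 (i : Fin 2) :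
    FreeGroup.startsWith (i, true) ∪ (FreeGroup.of i * ·) '' FreeGroup.startsWith (i, false) =
      (Set.univ : Set F2) := by
  refine Set.eq_univ_of_forall fun g => ?_
  by_cases h : g ∈ FreeGroup.startsWith (i, true)
  · exact Or.inl h
  · right
    refine ⟨FreeGroup.mk [(i, false)] * g, FreeGroup.startsWith_mk_mul (w := (i, false)) g h, ?_⟩
    change FreeGroup.of i * ((FreeGroup.of i)⁻¹ * g) = g
    rw [mul_inv_cancel_left]

theorem not_amenable_F2 : ¬ Amenable F2 := by
  rintro ⟨m, h0, h1, ha, hi⟩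
  have key : ∀ i : Fin 2, 1 ≤ m (FreeGroup.startsWith (i, true)) +
      m (FreeGroup.startsWith (i, false)) := by
    intro i
    have h2 := meas_union h0 ha (FreeGroup.startsWith (i, true))
      ((FreeGroup.of i * ·) '' FreeGroup.startsWith (i, false))
    rw [cover2, h1, hi] at h2
    exact h2
  have k0 := key 0
  have k1 := key 1
  have dj : ∀ {w w' : Fin 2 × Bool}, w ≠ w' → Disjoint (FreeGroup.startsWith w)
    (FreeGroup.startsWith w') := fun h => FreeGroup.startsWith.disjoint_iff_ne.2 h
  have d1 : Disjoint (FreeGroup.startsWith ((0 : Fin 2), true))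
    (FreeGroup.startsWith (0, false)) := dj (by simp)
  have d2 : Disjoint (FreeGroup.startsWith ((1 : Fin 2), true))
    (FreeGroup.startsWith (1, false)) := dj (by simp)
  have d3 : Disjoint (FreeGroup.startsWith ((0 : Fin 2), true) ∪ FreeGroup.startsWith (0, false))
      (FreeGroup.startsWith (1, true) ∪ FreeGroup.startsWith (1, false)) := by
    rw [Set.disjoint_union_left, Set.disjoint_union_right, Set.disjoint_union_right]
    exact ⟨⟨dj (by simp), dj (by simp)⟩, ⟨dj (by simp), dj (by simp)⟩⟩
  have e := ha _ _ d3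
  rw [ha _ _ d1, ha _ _ d2] at e
  have := meas_mono h0 ha (Set.subset_univ
    ((FreeGroup.startsWith ((0 : Fin 2), true) ∪ FreeGroup.startsWith (0, false)) ∪
      (FreeGroup.startsWith (1, true) ∪ FreeGroup.startsWith (1, false))))
  rw [h1, e] at this
  linarith

end Pool.Agent.X196.PH
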