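import Pool.Agent.X196.PH.Defs

/-! The tight span of a metric space: geodesic, inherits the four point condition. -/

set_option autoImplicit false

open Filter Topology

namespace Pool.Agent.X196.PH

variable {V : Type} [MetricSpace V]

def IsDel (f : V → ℝ) : Prop := ∀ x y, dist x y ≤ f x + f y

def IsExt (f : V → ℝ) : Prop := IsDel f ∧ ∀ x, ∀ ε > 0, ∃ y, f x + f y < dist x y + ε

theorem IsDel.nonneg {f : V → ℝ} (h : IsDel f) (x : V) : 0 ≤ f x := by
  have := h x x
  rw [dist_self] at this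
  linarith

theorem IsExt.lip {f : V → ℝ} (h : IsExt f) (x y : V) : f x ≤ f y + dist x y := by
  refine le_of_forall_pos_le_add fun ε hε => ?_
  obtain ⟨z, hz⟩ := h.2 x ε hε
  have h1 := h.1 y z
  have h2 := dist_triangle x y z
  linarith

theorem ext_diff {f g : V → ℝ} (hf : IsExt f) (hg : IsExt g) (o x : V) :
    |f x - g x| ≤ f o + g o := by
  have h1 := hf.lip x o
  have h2 := hg.lip x o
  have h3 := hg.1 x o
  have h4 := hf.1 x o
  rw [abs_le]
  constructor <;> linarith

variable (V) in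
/-- the tight span -/
def TS : Type := {f : V → ℝ // IsExt f}

theorem bdd (f g : TS V) : BddAbove (Set.range fun x => |f.1 x - g.1 x|) := by
  rcases isEmpty_or_nonempty V with h | ⟨⟨o⟩⟩
  · exact ⟨0, by rintro _ ⟨x, _⟩; exact (h.false x).elim⟩
  · exact ⟨f.1 o + g.1 o, by rintro _ ⟨x, rfl⟩; exact ext_diff f.2 g.2 o x⟩

noncomputable instance : Dist (TS V) := ⟨fun f g => ⨆ x, |f.1 x - g.1 x|⟩

theorem TS.dist_def (f g : TS V) : dist f g = ⨆ x, |f.1 x - g.1 x| := rfl

theorem TS.le_dist (f g : TS V) (x : V) : |f.1 x - g.1 x| ≤ dist f g :=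
  le_ciSup (bdd f g) x

theorem TS.dist_nonneg' (f g : TS V) : 0 ≤ dist f g :=
  Real.iSup_nonneg fun _ => abs_nonneg _

theorem TS.dist_le {f g : TS V} {c : ℝ} (hc : 0 ≤ c) (h : ∀ x, |f.1 x - g.1 x| ≤ c) :
    dist f g ≤ c := Real.iSup_le h hc

noncomputable instance : MetricSpace (TS V) where
  dist_self f := by
    apply le_antisymm _ (TS.dist_nonneg' f f)
    exact TS.dist_le le_rfl fun x => by simp
  dist_comm f g := by
    rw [TS.dist_def, TS.dist_def]
    congr 1
    funext x
    rw [abs_sub_comm]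
  dist_triangle f g h := by
    refine TS.dist_le (add_nonneg (TS.dist_nonneg' f g) (TS.dist_nonneg' g h)) fun x => ?_
    calc |f.1 x - h.1 x| ≤ |f.1 x - g.1 x| + |g.1 x - h.1 x| := abs_sub_le _ _ _
      _ ≤ _ := add_le_add (TS.le_dist f g x) (TS.le_dist g h x)
  eq_of_dist_eq_zero := by
    intro f g h
    apply Subtype.ext
    funext x
    have h1 := TS.le_dist f g x
    change dist f g = 0 at h
    rw [h] at h1
    have := abs_nonpos_iff.1 h1
    linarith

/-- points of `V` in the tight span -/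
def kur (v : V) : TS V := ⟨fun x => dist v x, by
  refine ⟨fun x y => ?_, fun x ε hε => ⟨v, ?_⟩⟩
  · change dist x y ≤ dist v x + dist v y
    rw [dist_comm v x]
    exact dist_triangle x v y
  · change dist v x + dist v v < dist x v + ε
    rw [dist_self, dist_comm v x]
    linarith⟩

theorem dist_kur' (f : TS V) (v : V) : dist f (kur v) = f.1 v := by
  apply le_antisymm
  · refine TS.dist_le (f.2.1.nonneg v) fun x => ?_
    change |f.1 x - dist v x| ≤ f.1 v
    have h1 := f.2.lip x v
    have h2 := f.2.1 v x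
    rw [dist_comm x v] at h1
    rw [abs_le]
    constructor <;> linarith
  · have h := TS.le_dist f (kur v) v
    change |f.1 v - dist v v| ≤ _ at h
    rw [dist_self, sub_zero, abs_of_nonneg (f.2.1.nonneg v)] at h
    exact h

theorem dist_kur (u v : V) : dist (kur u) (kur v) = dist u v := dist_kur' (kur u) v

/-! ### the retraction -/

noncomputable def star (f : V → ℝ) (x : V) : ℝ := ⨆ y, (dist x y - f y)

theorem bdd_star {f : V → ℝ} (hf : IsDel f) (x : V) :
    BddAbove (Set.range fun y => dist x y - f y) :=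
  ⟨f x, by rintro _ ⟨y, rfl⟩; have := hf x y; simp only; linarith⟩

theorem le_star {f : V → ℝ} (hf : IsDel f) (x y : V) : dist x y - f y ≤ star f x :=
  le_ciSup (bdd_star hf x) y

theorem star_le' {f : V → ℝ} {x : V} {c : ℝ} (h : ∀ y, dist x y - f y ≤ c) : star f x ≤ c := by
  have : Nonempty V := ⟨x⟩
  exact ciSup_le h

theorem star_le {f : V → ℝ} (hf : IsDel f) (x : V) : star f x ≤ f x :=
  star_le' fun y => by have := hf x y; linarith

noncomputable def qq (f : V → ℝ) (x : V) : ℝ := (f x + star f x) / 2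

theorem qq_del {f : V → ℝ} (hf : IsDel f) : IsDel (qq f) := by
  intro x y
  unfold qq
  have h1 := le_star hf x y
  have h2 := le_star hf y x
  rw [dist_comm y x] at h2
  linarith

theorem qq_le {f : V → ℝ} (hf : IsDel f) (x : V) : qq f x ≤ f x := by
  unfold qq
  have := star_le hf x
  linarith

theorem star_lip {f g : V → ℝ} (hg : IsDel g) {c : ℝ} (h : ∀ x, |f x - g x| ≤ c)
    (x : V) : star f x ≤ star g x + c := by
  refine star_le' fun y => ?_
  have h1 := le_star hg x y
  have h2 := (abs_le.1 (h y)).1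
  linarith

theorem qq_lip {f g : V → ℝ} (hf : IsDel f) (hg : IsDel g) {c : ℝ} (h : ∀ x, |f x - g x| ≤ c)
    (x : V) : |qq f x - qq g x| ≤ c := by
  have h1 := star_lip hg h x
  have h2 := star_lip hf (f := g) (fun x => by rw [abs_sub_comm]; exact h x) x
  have h3 := abs_le.1 (h x)
  unfold qq
  rw [abs_le]
  constructor <;> linarith [h3.1, h3.2]

theorem it_del {f : V → ℝ} (hf : IsDel f) (n : ℕ) : IsDel (qq^[n] f) := by
  induction n with
  | zero => exact hf
  | succ n ih => rw [Function.iterate_succ_apply']; exact qq_del ih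

theorem it_anti {f : V → ℝ} (hf : IsDel f) (x : V) : Antitone fun n => (qq^[n] f) x :=
  antitone_nat_of_succ_le fun n => by
    rw [Function.iterate_succ_apply']
    exact qq_le (it_del hf n) x

theorem it_gap {f : V → ℝ} (hf : IsDel f) (n : ℕ) (x : V) :
    (qq^[n] f) x - star (qq^[n] f) x ≤ (1 / 2) ^ n * (f x - star f x) := by
  induction n with
  | zero => simp
  | succ n ih =>
    have h1 : star (qq^[n] f) x ≤ star (qq^[n + 1] f) x := by
      refine star_le' fun y => ?_
      have h2 := le_star (it_del hf (n + 1)) x y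
      have h3 := it_anti hf y (Nat.le_succ n)
      simp only [Nat.succ_eq_add_one] at h3
      linarith
    have h4 : (qq^[n + 1] f) x = ((qq^[n] f) x + star (qq^[n] f) x) / 2 := by
      rw [Function.iterate_succ_apply']
      rfl
    rw [h4, pow_succ]
    linarith

noncomputable def pr (f : V → ℝ) (x : V) : ℝ := ⨅ n, (qq^[n] f) x

theorem pr_bdd {f : V → ℝ} (hf : IsDel f) (x : V) : BddBelow (Set.range fun n => (qq^[n] f) x) :=
  ⟨0, by rintro _ ⟨n, rfl⟩; exact (it_del hf n).nonneg x⟩

theorem pr_tendsto {f : V → ℝ} (hf : IsDel f) (x : V) :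
    Tendsto (fun n => (qq^[n] f) x) atTop (𝓝 (pr f x)) :=
  tendsto_atTop_ciInf (it_anti hf x) (pr_bdd hf x)

theorem pr_le {f : V → ℝ} (hf : IsDel f) (x : V) (n : ℕ) : pr f x ≤ (qq^[n] f) x :=
  ciInf_le (pr_bdd hf x) n

theorem pr_ext {f : V → ℝ} (hf : IsDel f) : IsExt (pr f) := by
  constructor
  · intro x y
    exact ge_of_tendsto' ((pr_tendsto hf x).add (pr_tendsto hf y)) fun n => it_del hf n x y
  · intro x ε hε
    have h1 : Tendsto (fun n : ℕ => (1 / 2 : ℝ) ^ n * (f x - star f x)) atTop (𝓝 0) := by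
      have := (tendsto_pow_atTop_nhds_zero_of_lt_one (r := (1 / 2 : ℝ)) (by norm_num)
        (by norm_num)).mul_const (f x - star f x)
      rwa [zero_mul] at this
    obtain ⟨n, hn⟩ := (h1.eventually (gt_mem_nhds (half_pos hε))).exists
    have h2 := it_gap hf n x
    have : Nonempty V := ⟨x⟩
    obtain ⟨y, hy⟩ := exists_lt_of_lt_ciSup
      (show star (qq^[n] f) x - ε / 2 < ⨆ y, (dist x y - (qq^[n] f) y) by
        change _ < star (qq^[n] f) x
        linarith)
    refine ⟨y, ?_⟩
    have h3 := pr_le hf x n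
    have h4 := pr_le hf y n
    linarith

theorem pr_lip {f g : V → ℝ} (hf : IsDel f) (hg : IsDel g) {c : ℝ} (h : ∀ x, |f x - g x| ≤ c)
    (x : V) : |pr f x - pr g x| ≤ c := by
  have h1 : ∀ n : ℕ, ∀ x, |(qq^[n] f) x - (qq^[n] g) x| ≤ c := by
    intro n
    induction n with
    | zero => exact h
    | succ n ih =>
      intro x
      rw [Function.iterate_succ_apply', Function.iterate_succ_apply']
      exact qq_lip (it_del hf n) (it_del hg n) ih x
  exact le_of_tendsto' ((pr_tendsto hf x).sub (pr_tendsto hg x)).abs fun n => h1 n x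

theorem pr_id {f : V → ℝ} (hf : IsExt f) : pr f = f := by
  have h1 : qq f = f := by
    funext x
    have h2 : f x ≤ star f x := by
      refine le_of_forall_pos_le_add fun ε hε => ?_
      obtain ⟨y, hy⟩ := hf.2 x ε hε
      have := le_star hf.1 x y
      linarith
    have h3 := star_le hf.1 x
    unfold qq
    linarith
  have h2 : ∀ n : ℕ, qq^[n] f = f := fun n => Function.iterate_fixed h1 n
  funext x
  unfold pr
  simp only [h2]
  exact ciInf_const

theorem mix_del {f g : V → ℝ} (hf : IsDel f) (hg : IsDel g) {c : ℝ} (h0 : 0 ≤ c) (h1 : c ≤ 1) :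
    IsDel fun x => (1 - c) * f x + c * g x := by
  intro x y
  have h2 := mul_le_mul_of_nonneg_left (hf x y) (sub_nonneg.2 h1)
  have h3 := mul_le_mul_of_nonneg_left (hg x y) h0
  simp only
  linarith

noncomputable def clp (c : ℝ) : ℝ := max 0 (min 1 c)

theorem clp0 (c : ℝ) : 0 ≤ clp c := le_max_left _ _

theorem clp1 (c : ℝ) : clp c ≤ 1 := max_le zero_le_one (min_le_left _ _)

theorem clp_eq {c : ℝ} (h0 : 0 ≤ c) (h1 : c ≤ 1) : clp c = c := by
  unfold clp
  rw [min_eq_right h1, max_eq_right h0]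

noncomputable def path (f g : TS V) (s : ℝ) : TS V :=
  ⟨pr fun x => (1 - clp (s / dist f g)) * f.1 x + clp (s / dist f g) * g.1 x,
    pr_ext (mix_del f.2.1 g.2.1 (clp0 _) (clp1 _))⟩

theorem path_zero (f g : TS V) : path f g 0 = f := by
  apply Subtype.ext
  have : clp (0 / dist f g) = 0 := by rw [zero_div]; exact clp_eq le_rfl zero_le_one
  simp only [path, this, sub_zero, one_mul, zero_mul, add_zero]
  exact pr_id f.2

theorem path_one (f g : TS V) : path f g (dist f g) = g := by
  by_cases h : dist f g = 0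
  · have h' := dist_eq_zero.1 h
    subst h'
    rw [dist_self]
    exact path_zero f f
  · apply Subtype.ext
    have : clp (dist f g / dist f g) = 1 := by rw [div_self h]; exact clp_eq zero_le_one le_rfl
    simp only [path, this, sub_self, one_mul, zero_mul, zero_add]
    exact pr_id g.2

theorem path_lip (f g : TS V) {s t : ℝ} (hs : s ∈ Set.Icc 0 (dist f g))
    (ht : t ∈ Set.Icc 0 (dist f g)) : dist (path f g s) (path f g t) ≤ |s - t| := by
  refine TS.dist_le (abs_nonneg _) fun x => ?_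
  refine pr_lip (mix_del f.2.1 g.2.1 (clp0 _) (clp1 _)) (mix_del f.2.1 g.2.1 (clp0 _) (clp1 _))
    (fun x => ?_) x
  have hd : 0 ≤ dist f g := dist_nonneg
  by_cases h : dist f g = 0
  · rw [h] at hs ht
    have h1 : s = 0 := le_antisymm hs.2 hs.1
    have h2 : t = 0 := le_antisymm ht.2 ht.1
    subst h1 h2
    simp
  · have hd' : 0 < dist f g := lt_of_le_of_ne hd (Ne.symm h)
    rw [clp_eq (div_nonneg hs.1 hd) ((div_le_one hd').2 hs.2),
      clp_eq (div_nonneg ht.1 hd) ((div_le_one hd').2 ht.2)]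
    have e : (1 - s / dist f g) * f.1 x + s / dist f g * g.1 x -
        ((1 - t / dist f g) * f.1 x + t / dist f g * g.1 x) =
        (s - t) * ((g.1 x - f.1 x) / dist f g) := by
      field_simp
      ring
    rw [e, abs_mul]
    have h3 : |(g.1 x - f.1 x) / dist f g| ≤ 1 := by
      rw [abs_div, abs_of_pos hd', div_le_one hd', abs_sub_comm]
      exact TS.le_dist f g x
    exact mul_le_of_le_one_right (abs_nonneg _) h3

theorem geodesic : Geodesic (TS V) := by
  intro f g
  refine ⟨path f g, path_zero f g, path_one f g, ?_⟩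
  have key : ∀ s ∈ Set.Icc 0 (dist f g), ∀ t ∈ Set.Icc 0 (dist f g), s ≤ t →
      dist (path f g s) (path f g t) = |s - t| := by
    intro s hs t ht hst
    apply le_antisymm (path_lip f g hs ht)
    have h0 : (0 : ℝ) ∈ Set.Icc 0 (dist f g) := ⟨le_rfl, dist_nonneg⟩
    have hL : dist f g ∈ Set.Icc 0 (dist f g) := ⟨dist_nonneg, le_rfl⟩
    have h1 := path_lip f g h0 hs
    have h2 := path_lip f g ht hL
    rw [path_zero] at h1
    rw [path_one] at h2
    have h3 := dist_triangle4 f (path f g s) (path f g t) g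
    rw [abs_of_nonpos (by linarith [hs.1] : (0 : ℝ) - s ≤ 0)] at h1
    rw [abs_of_nonpos (by linarith [ht.2] : t - dist f g ≤ 0)] at h2
    rw [abs_of_nonpos (by linarith : s - t ≤ 0)]
    linarith
  intro s hs t ht
  rcases le_total s t with h | h
  · exact key s hs t ht h
  · rw [dist_comm, abs_sub_comm]
    exact key t ht s hs h

/-! ### hyperbolicity -/

theorem pair_le (f g : TS V) (x y : V) : dist x y - f.1 x - g.1 y ≤ dist f g := by
  have h1 := f.2.1 x y
  have h2 := TS.le_dist f g y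
  have h3 := le_abs_self (f.1 y - g.1 y)
  linarith

theorem exists_pair [Nonempty V] (f g : TS V) {ε : ℝ} (hε : 0 < ε) :
    ∃ x y, dist f g - ε ≤ dist x y - f.1 x - g.1 y := by
  obtain ⟨z, hz⟩ := exists_lt_of_lt_ciSup (show dist f g - ε / 2 < ⨆ x, |f.1 x - g.1 x| by
    rw [← TS.dist_def]; linarith)
  rcases abs_cases (f.1 z - g.1 z) with ⟨h, _⟩ | ⟨h, _⟩
  · obtain ⟨y, hy⟩ := f.2.2 z (ε / 2) (half_pos hε)
    refine ⟨y, z, ?_⟩
    rw [dist_comm y z]
    linarith
  · obtain ⟨y, hy⟩ := g.2.2 z (ε / 2) (half_pos hε)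
    refine ⟨z, y, ?_⟩
    linarith

theorem ts_hyp [Nonempty V] (h : GromovHyp V) : GromovHyp (TS V) := by
  obtain ⟨δ, h⟩ := h
  refine ⟨δ, fun f g k l => ?_⟩
  refine le_of_forall_pos_le_add fun ε hε => ?_
  obtain ⟨x, y, h1⟩ := exists_pair f g (half_pos hε)
  obtain ⟨z, w, h2⟩ := exists_pair k l (half_pos hε)
  have h3 := h x y z w
  have h4 := pair_le f k x z
  have h5 := pair_le g l y w
  have h6 := pair_le f l x w
  have h7 := pair_le g k y z
  rcases max_cases (dist x z + dist y w) (dist x w + dist y z) with ⟨e, _⟩ | ⟨e, _⟩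
  · have := le_max_left (dist f k + dist g l) (dist f l + dist g k)
    linarith
  · have := le_max_right (dist f k + dist g l) (dist f l + dist g k)
    linarith

def CoarseGeo (V : Type) [MetricSpace V] (c : ℝ) : Prop :=
  ∀ x y : V, ∀ r : ℝ, 0 ≤ r → r ≤ dist x y →
    ∃ v, dist x v ≤ r + c ∧ dist v y ≤ dist x y - r + c

theorem coarse_dense [Nonempty V] (h : GromovHyp V) {c : ℝ} (hg : CoarseGeo V c) :
    ∃ C : ℝ, ∀ f : TS V, ∃ v : V, dist f (kur v) ≤ C := by
  obtain ⟨δ, h⟩ := h
  refine ⟨2 + c + δ, fun f => ?_⟩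
  obtain ⟨x⟩ := ‹Nonempty V›
  obtain ⟨y, hy⟩ := f.2.2 x 1 one_pos
  have hx0 := f.2.1.nonneg x
  have hy0 := f.2.1.nonneg y
  have hxy := f.2.1 x y
  obtain ⟨v, hv1, hv2⟩ := hg x y (min (f.1 x) (dist x y)) (le_min hx0 dist_nonneg)
    (min_le_right _ _)
  refine ⟨v, ?_⟩
  rw [dist_kur']
  have hv1' : dist x v ≤ f.1 x + c := hv1.trans (by linarith [min_le_left (f.1 x) (dist x y)])
  have hv2' : dist v y ≤ f.1 y + c := by
    rcases min_cases (f.1 x) (dist x y) with ⟨e, _⟩ | ⟨e, _⟩ <;> rw [e] at hv2 <;> linarith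
  obtain ⟨z, hz⟩ := f.2.2 v 1 one_pos
  have h4 := h v z x y
  have h5 := f.2.1 z y
  have h6 := f.2.1 z x
  rw [dist_comm x v] at hv1'
  rcases max_cases (dist v x + dist z y) (dist v y + dist z x) with ⟨e, _⟩ | ⟨e, _⟩ <;>
    rw [e] at h4 <;> linarith

/-! ### isometries -/

theorem comp_ext (σ : V ≃ᵢ V) {f : V → ℝ} (hf : IsExt f) : IsExt fun x => f (σ.symm x) := by
  refine ⟨fun x y => ?_, fun x ε hε => ?_⟩
  · have := hf.1 (σ.symm x) (σ.symm y)
    rwa [σ.symm.isometry.dist_eq] at this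
  · obtain ⟨y, hy⟩ := hf.2 (σ.symm x) ε hε
    refine ⟨σ y, ?_⟩
    have e : dist x (σ y) = dist (σ.symm x) y := by
      rw [← σ.isometry.dist_eq (σ.symm x) y, σ.apply_symm_apply]
    simp only [σ.symm_apply_apply]
    rw [e]
    exact hy

def tmap (σ : V ≃ᵢ V) (f : TS V) : TS V := ⟨fun x => f.1 (σ.symm x), comp_ext σ f.2⟩

theorem tmap_dist_le (σ : V ≃ᵢ V) (f g : TS V) : dist (tmap σ f) (tmap σ g) ≤ dist f g :=
  TS.dist_le dist_nonneg fun x => TS.le_dist f g (σ.symm x)

theorem tmap_inv (σ : V ≃ᵢ V) (f : TS V) : tmap σ (tmap σ.symm f) = f := by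
  apply Subtype.ext
  funext x
  change f.1 (σ.symm.symm (σ.symm x)) = f.1 x
  rw [IsometryEquiv.symm_symm, σ.apply_symm_apply]

theorem tmap_inv' (σ : V ≃ᵢ V) (f : TS V) : tmap σ.symm (tmap σ f) = f := by
  apply Subtype.ext
  funext x
  change f.1 (σ.symm (σ.symm.symm x)) = f.1 x
  rw [IsometryEquiv.symm_symm, σ.symm_apply_apply]

noncomputable def tiso (σ : V ≃ᵢ V) : TS V ≃ᵢ TS V where
  toFun := tmap σ
  invFun := tmap σ.symm
  left_inv := tmap_inv' σ
  right_inv := tmap_inv σ
  isometry_toFun := Isometry.of_dist_eq fun f g => by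
    apply le_antisymm (tmap_dist_le σ f g)
    have h := tmap_dist_le σ.symm (tmap σ f) (tmap σ g)
    rwa [tmap_inv', tmap_inv'] at h

variable (V) in
noncomputable def thom : (V ≃ᵢ V) →* (TS V ≃ᵢ TS V) where
  toFun := tiso
  map_one' := by
    ext f
    apply Subtype.ext
    rfl
  map_mul' σ τ := by
    ext f
    apply Subtype.ext
    rfl

theorem thom_kur (σ : V ≃ᵢ V) (v : V) : thom V σ (kur v) = kur (σ v) := by
  apply Subtype.ext
  funext x
  change dist v (σ.symm x) = dist (σ v) x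
  rw [← σ.isometry.dist_eq v (σ.symm x), σ.apply_symm_apply]

end Pool.Agent.X196.PH
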